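import Pool.Agent.H67.FG.Wld

/-!
# FG with levels: few outermost MOD gates in each subformula, bounded nesting

`Fo.outer A`: the outermost MOD gates of `A`; `Fo.nest A`: the nesting depth of the MOD gates.
`deg_lev`: if every subformula of `A` has at most `t` outermost gates and `A.nest ≤ n`, then the values of
the subformulas have degree at most `lvd t p D0 n`.
-/

set_option autoImplicit false

namespace Pool.Agent.H67.FG

open Pool.Agent.H3.Frg

section Syntax

variable {V : Type}

/-- the outermost MOD gates -/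
def Fo.outer : Fo V → Set (Fo V)
  | .var _ => ∅
  | .neg A => A.outer
  | .imp A B => A.outer ∪ B.outer
  | .mod a n f => {.mod a n f}

/-- the nesting depth of the MOD gates -/
def Fo.nest : Fo V → ℕ
  | .var _ => 0
  | .neg A => A.nest
  | .imp A B => max A.nest B.nest
  | .mod _ _ f => (Finset.univ.sup fun i => (f i).nest) + 1

theorem lev_self (A : Fo V) : A ∈ A.subs := by
  cases A <;> simp [Fo.subs]

theorem lev_trans {A B : Fo V} (C : Fo V) (h1 : A ∈ B.subs) (h2 : B ∈ C.subs) : A ∈ C.subs := by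
  induction C with
  | var v =>
    simp only [Fo.subs, List.mem_singleton] at h2
    rw [h2] at h1
    exact h1
  | neg D ih =>
    simp only [Fo.subs, List.mem_cons] at h2
    rcases h2 with h2 | h2
    · rw [h2] at h1
      exact h1
    · simp only [Fo.subs, List.mem_cons]
      exact Or.inr (ih h2)
  | imp D E ihD ihE =>
    simp only [Fo.subs, List.mem_cons, List.mem_append] at h2
    rcases h2 with h2 | h2 | h2
    · rw [h2] at h1
      exact h1
    · simp only [Fo.subs, List.mem_cons, List.mem_append]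
      exact Or.inr (Or.inl (ihD h2))
    · simp only [Fo.subs, List.mem_cons, List.mem_append]
      exact Or.inr (Or.inr (ihE h2))
  | mod a n f ih =>
    simp only [Fo.subs, List.mem_cons, List.mem_flatMap, List.mem_finRange, true_and] at h2
    rcases h2 with h2 | ⟨i, h2⟩
    · rw [h2] at h1
      exact h1
    · simp only [Fo.subs, List.mem_cons, List.mem_flatMap, List.mem_finRange, true_and]
      exact Or.inr ⟨i, ih i h2⟩

theorem lev_input (a n : ℕ) (f : Fin n → Fo V) (i : Fin n) : f i ∈ (Fo.mod a n f).subs := by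
  simp only [Fo.subs, List.mem_cons, List.mem_flatMap, List.mem_finRange, true_and]
  exact Or.inr ⟨i, lev_self _⟩

theorem outer_spec (A : Fo V) : ∀ γ ∈ A.outer, γ ∈ A.subs ∧ γ.IsMod ∧ γ.nest ≤ A.nest := by
  induction A with
  | var v => intro γ hγ; exact absurd hγ (by simp [Fo.outer])
  | neg D ih =>
    intro γ hγ
    obtain ⟨h1, h2, h3⟩ := ih γ hγ
    exact ⟨by simp only [Fo.subs, List.mem_cons]; exact Or.inr h1, h2, h3⟩
  | imp D E ihD ihE =>
    intro γ hγ
    rcases hγ with hγ | hγ
    · obtain ⟨h1, h2, h3⟩ := ihD γ hγ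
      exact ⟨by simp only [Fo.subs, List.mem_cons, List.mem_append]; exact Or.inr (Or.inl h1), h2,
        h3.trans (le_max_left _ _)⟩
    · obtain ⟨h1, h2, h3⟩ := ihE γ hγ
      exact ⟨by simp only [Fo.subs, List.mem_cons, List.mem_append]; exact Or.inr (Or.inr h1), h2,
        h3.trans (le_max_right _ _)⟩
  | mod a n f ih =>
    intro γ hγ
    have hγ' : γ = Fo.mod a n f := hγ
    rw [hγ']
    exact ⟨lev_self _, ⟨a, n, f, rfl⟩, le_rfl⟩

theorem outer_finite (A : Fo V) : A.outer.Finite := by
  induction A with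
  | var v => exact Set.finite_empty
  | neg D ih => exact ih
  | imp D E ihD ihE => exact ihD.union ihE
  | mod a n f ih => exact Set.finite_singleton _

theorem tr_congr_outer {g g' : Fo V → Bool} (A : Fo V) (h : ∀ γ ∈ A.outer, g γ = g' γ) :
    tr g A = tr g' A := by
  induction A with
  | var v => rfl
  | neg D ih => simp only [tr, ih h]
  | imp D E ihD ihE =>
    simp only [tr, ihD fun γ hγ => h γ (Or.inl hγ), ihE fun γ hγ => h γ (Or.inr hγ)]
  | mod a n f ih => simp only [tr, h _ (Set.mem_singleton _)]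

theorem nest_input {a n : ℕ} {f : Fin n → Fo V} (i : Fin n) {m : ℕ}
    (h : (Fo.mod a n f).nest ≤ m + 1) : (f i).nest ≤ m := by
  have h1 : (Finset.univ.sup fun i => (f i).nest) + 1 ≤ m + 1 := h
  have h2 : (f i).nest ≤ Finset.univ.sup fun i => (f i).nest :=
    Finset.le_sup (f := fun i => (f i).nest) (Finset.mem_univ i)
  omega

end Syntax

section Degree

variable {V Y : Type} {p : ℕ} [Fact p.Prime]

/-- the degrees -/
def lvd (t p D0 : ℕ) : ℕ → ℕ
  | 0 => D0
  | n + 1 => t * ((p - 1) * lvd t p D0 n) + D0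

theorem lvd_le (t p D0 n : ℕ) : D0 ≤ lvd t p D0 n := by
  cases n with
  | zero => exact le_rfl
  | succ n => exact Nat.le_add_left _ _

theorem lvd_succ_ge {t p D0 : ℕ} (ht : 1 ≤ t) (hp : 2 ≤ p) (n : ℕ) :
    lvd t p D0 n ≤ lvd t p D0 (n + 1) := by
  have h1 : 1 ≤ t * (p - 1) := Nat.one_le_iff_ne_zero.2 (Nat.mul_ne_zero (by omega) (by omega))
  have h2 : lvd t p D0 n ≤ t * ((p - 1) * lvd t p D0 n) := by
    rw [← mul_assoc]
    exact Nat.le_mul_of_pos_left _ h1
  exact h2.trans (Nat.le_add_right _ _)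

/-- in one power -/
theorem lvd_le_pow {t p D0 : ℕ} (ht : 1 ≤ t) (hp : 2 ≤ p) (n : ℕ) :
    lvd t p D0 n ≤ (t * p) ^ n * D0 := by
  induction n with
  | zero => simp [lvd]
  | succ n ih =>
    have h1 : t * ((p - 1) * lvd t p D0 n) ≤ t * ((p - 1) * ((t * p) ^ n * D0)) :=
      Nat.mul_le_mul_left _ (Nat.mul_le_mul_left _ ih)
    have h2 : D0 ≤ t * ((t * p) ^ n * D0) := by
      have h3 : 1 ≤ t * (t * p) ^ n := Nat.one_le_iff_ne_zero.2
        (Nat.mul_ne_zero (by omega) (pow_ne_zero _ (Nat.mul_ne_zero (by omega) (by omega))))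
      calc D0 = 1 * D0 := (one_mul _).symm
        _ ≤ t * (t * p) ^ n * D0 := Nat.mul_le_mul_right _ h3
        _ = t * ((t * p) ^ n * D0) := by ring
    obtain ⟨r, rfl⟩ : ∃ r, p = r + 1 := ⟨p - 1, by omega⟩
    have h4 : (t * (r + 1)) ^ (n + 1) * D0 =
        t * ((r + 1 - 1) * ((t * (r + 1)) ^ n * D0)) + t * ((t * (r + 1)) ^ n * D0) := by
      rw [Nat.add_sub_cancel]
      ring
    rw [h4]
    exact Nat.add_le_add h1 h2

theorem alg_prod (𝓐 : Alg (ZMod p) Y) {ι : Type} (s : Finset ι) (F : ι → Y → ZMod p) (D : ℕ)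
    (h : ∀ i ∈ s, F i ∈ 𝓐.Deg D) : ∏ i ∈ s, F i ∈ 𝓐.Deg (s.card * D) := by
  classical
  induction s using Finset.induction_on with
  | empty => simpa using 𝓐.one 0
  | insert i s hi ih =>
    rw [Finset.prod_insert hi, Finset.card_insert_of_notMem hi]
    have h1 := 𝓐.mul (h i (Finset.mem_insert_self _ _))
      (ih fun j hj => h j (Finset.mem_insert_of_mem hj))
    have h2 : (s.card + 1) * D = D + s.card * D := by ring
    rw [h2]
    exact h1

theorem alg_pow (𝓐 : Alg (ZMod p) Y) (F : Y → ZMod p) (D : ℕ) (h : F ∈ 𝓐.Deg D) (n : ℕ) :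
    F ^ n ∈ 𝓐.Deg (n * D) := by
  have h1 := alg_prod 𝓐 (Finset.range n) (fun _ => F) D fun _ _ => h
  rwa [Finset.prod_const, Finset.card_range] at h1

/-- the value of a MOD gate (Fermat) -/
theorem ind_gate (a n : ℕ) (u : Y → Fin n → Bool) :
    (ind (fun y => (Finset.univ.filter fun i => u y i = true).card % p = a % p) : Y → ZMod p) =
      1 - (∑ i, ind (fun y => u y i = true) - (a : Y → ZMod p)) ^ (p - 1) := by
  classical
  funext y
  have h1 : (∑ i, ind (fun y => u y i = true) : Y → ZMod p) y =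
      (((Finset.univ.filter fun i => u y i = true).card : ℕ) : ZMod p) := by
    rw [Finset.sum_apply, Finset.card_filter]
    push_cast
    refine Finset.sum_congr rfl fun i _ => ?_
    by_cases h : u y i = true <;> simp [ind, h]
  have hp2 : 1 < p := (Fact.out : p.Prime).one_lt
  by_cases h : (Finset.univ.filter fun i => u y i = true).card % p = a % p
  · have h2 : (∑ i, ind (fun y => u y i = true) - (a : Y → ZMod p) : Y → ZMod p) y = 0 := by
      rw [Pi.sub_apply, h1, Pi.natCast_apply]
      have h3 : (((Finset.univ.filter fun i => u y i = true).card : ℕ) : ZMod p) = (a : ZMod p) :=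
        (ZMod.natCast_eq_natCast_iff _ _ _).2 h
      rw [h3, sub_self]
    rw [Pi.sub_apply, Pi.pow_apply, h2, zero_pow (by omega)]
    simp only [ind, h, if_true, Pi.one_apply, sub_zero]
  · have h2 : (∑ i, ind (fun y => u y i = true) - (a : Y → ZMod p) : Y → ZMod p) y ≠ 0 := by
      rw [Pi.sub_apply, h1, Pi.natCast_apply, sub_ne_zero]
      intro h3
      exact h ((ZMod.natCast_eq_natCast_iff _ _ _).1 h3)
    rw [Pi.sub_apply, Pi.pow_apply, ZMod.pow_card_sub_one_eq_one h2]
    simp only [ind, h, if_false, Pi.one_apply, sub_self]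

theorem nat_mem (𝓐 : Alg (ZMod p) Y) (a n : ℕ) : (a : Y → ZMod p) ∈ 𝓐.Deg n := by
  have h1 : (a : Y → ZMod p) = (a : ZMod p) • (1 : Y → ZMod p) := by
    funext y
    simp
  rw [h1]
  exact (𝓐.Deg n).smul_mem _ (𝓐.one n)

theorem gate_mem (𝓐 : Alg (ZMod p) Y) (a n D : ℕ) (u : Y → Fin n → Bool)
    (h : ∀ i, ind (fun y => u y i = true) ∈ 𝓐.Deg D) :
    ind (fun y => (Finset.univ.filter fun i => u y i = true).card % p = a % p) ∈
      𝓐.Deg ((p - 1) * D) := by
  rw [ind_gate]
  refine (𝓐.Deg _).sub_mem (𝓐.one _) (alg_pow 𝓐 _ D ?_ _)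
  exact (𝓐.Deg D).sub_mem ((𝓐.Deg D).sum_mem fun i _ => h i) (nat_mem 𝓐 a D)

/-- the case distinction over the values of the outermost gates -/
theorem ind_outer (g : Y → Fo V → Bool) (B : Fo V) (Γ : Finset (Fo V)) (hΓ : ∀ γ, γ ∈ Γ ↔ γ ∈ B.outer)
    (Q : Y → Fm (V ⊕ Bool) → Prop) : open scoped Classical in
    (ind (fun y => Q y (tr (g y) B)) : Y → ZMod p) = ∑ s ∈ Γ.powerset,
      (∏ γ ∈ Γ, ind (fun y => g y γ = decide (γ ∈ s))) * ind (fun y => Q y (tr (fun γ => decide (γ ∈ s)) B)) := by
  classical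
  funext y
  rw [Finset.sum_apply]
  rw [Finset.sum_eq_single (Γ.filter fun γ => g y γ = true)]
  · have h1 : tr (fun γ => decide (γ ∈ Γ.filter fun γ => g y γ = true)) B = tr (g y) B := by
      refine tr_congr_outer B fun γ hγ => ?_
      have h2 : γ ∈ Γ := (hΓ γ).2 hγ
      cases h3 : g y γ <;> simp [h2, h3]
    have h2 : (∏ γ ∈ Γ, ind (fun y' => g y' γ = decide (γ ∈ Γ.filter fun γ => g y γ = true)) : Y → ZMod p) y
        = 1 := by
      rw [Finset.prod_apply]
      refine Finset.prod_eq_one fun γ hγ => ?_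
      have h3 : g y γ = decide (γ ∈ Γ.filter fun γ => g y γ = true) := by
        cases h4 : g y γ <;> simp [hγ, h4]
      simp only [ind]
      rw [if_pos h3]
    rw [Pi.mul_apply, h2, one_mul]
    simp only [ind, h1]
  · intro s hs hne
    have hsub : s ⊆ Γ := Finset.mem_powerset.1 hs
    have h1 : ∃ γ ∈ Γ, g y γ ≠ decide (γ ∈ s) := by
      by_contra hcon
      push Not at hcon
      apply hne
      ext γ
      rw [Finset.mem_filter]
      constructor
      · intro h
        refine ⟨hsub h, ?_⟩
        rw [hcon γ (hsub h)]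
        simp [h]
      · rintro ⟨h2, h3⟩
        rw [hcon γ h2] at h3
        simpa using h3
    obtain ⟨γ, hγ, h2⟩ := h1
    rw [Pi.mul_apply, Finset.prod_apply, Finset.prod_eq_zero hγ, zero_mul]
    simp only [ind]
    rw [if_neg h2]
  · intro h
    exact absurd (Finset.mem_powerset.2 (Finset.filter_subset _ _)) h

/-- the value of a subformula of the line `A` has low degree, and it is undecided only in `Z` -/
theorem deg_lev (𝓐 : Alg (ZMod p) Y) (r : Y → Fm (V ⊕ Bool) → Option Bool)
    (g : Y → Fo V → Bool) (hg1 : ∀ y a n f, g y (.mod a n f) =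
      decide ((Finset.univ.filter fun i => g y (f i) = true).card % p = a % p))
    (hg2 : ∀ y A, g y A = (r y (tr (g y) A)).getD false) (A : Fo V) (t D0 n : ℕ) (ht1 : 1 ≤ t)
    (ht : ∀ B ∈ A.subs, B.outer.ncard ≤ t) (hn : A.nest ≤ n)
    (hdeg : ∀ (G : Fo V → Bool), ∀ B ∈ A.subs, ∀ b, ind (fun y => r y (tr G B) = b) ∈ 𝓐.Deg D0)
    (hz : ∀ (G : Fo V → Bool), ∀ B ∈ A.subs, ind (fun y => r y (tr G B) = none) ∈ 𝓐.Z)
    (hK : lvd t p D0 n ≤ 𝓐.K) : ∀ B ∈ A.subs,
      ind (fun y => g y B = true) ∈ 𝓐.Deg (lvd t p D0 n) ∧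
      ind (fun y => r y (tr (g y) B) = none) ∈ 𝓐.Deg (lvd t p D0 n) ∧
      ind (fun y => r y (tr (g y) B) = none) ∈ 𝓐.Z := by
  classical
  have hp2 : 2 ≤ p := (Fact.out : p.Prime).two_le
  have key : ∀ m, m ≤ n → ∀ B ∈ A.subs, B.nest ≤ m →
      (∀ b, ind (fun y => r y (tr (g y) B) = b) ∈ 𝓐.Deg (lvd t p D0 m)) ∧
      ind (fun y => r y (tr (g y) B) = none) ∈ 𝓐.Z := by
    intro m
    induction m with
    | zero =>
      intro _ B hB hBn
      have hout : B.outer = ∅ := by
        rw [Set.eq_empty_iff_forall_notMem]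
        intro γ hγ
        obtain ⟨_, ⟨a, k, f, rfl⟩, h3⟩ := outer_spec B γ hγ
        have h4 : (Finset.univ.sup fun i => (f i).nest) + 1 ≤ B.nest := h3
        omega
      have htr : ∀ y, tr (g y) B = tr (fun _ => false) B := fun y =>
        tr_congr_outer B fun γ hγ => by rw [hout] at hγ; exact absurd hγ (Set.notMem_empty γ)
      simp only [htr]
      exact ⟨fun b => hdeg _ B hB b, hz _ B hB⟩
    | succ m ih =>
      intro hm B hB hBn
      have hf := outer_finite B
      have hΓ : ∀ γ, γ ∈ hf.toFinset ↔ γ ∈ B.outer := fun γ => hf.mem_toFinset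
      have hcard : hf.toFinset.card ≤ t := by
        rw [← Set.ncard_eq_toFinset_card B.outer hf]
        exact ht B hB
      have hgate : ∀ γ ∈ hf.toFinset, ∀ s : Finset (Fo V),
          ind (fun y => g y γ = decide (γ ∈ s)) ∈ 𝓐.Deg ((p - 1) * lvd t p D0 m) := by
        intro γ hγ s
        obtain ⟨h1, ⟨a, k, f, rfl⟩, h3⟩ := outer_spec B γ ((hΓ γ).1 hγ)
        have h4 : ∀ i, ind (fun y => g y (f i) = true) ∈ 𝓐.Deg (lvd t p D0 m) := by
          intro i
          have h5 : f i ∈ A.subs := lev_trans A (lev_input a k f i) (lev_trans A h1 hB)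
          have h6 := (ih (by omega) (f i) h5 (nest_input i (h3.trans hBn))).1 (some true)
          have h7 : (fun y => g y (f i) = true) = fun y => r y (tr (g y) (f i)) = some true := by
            funext y
            rw [hg2 y (f i)]
            cases r y (tr (g y) (f i)) <;> simp
          rw [h7]
          exact h6
        have h8 := gate_mem 𝓐 a k (lvd t p D0 m) (fun y i => g y (f i)) h4
        by_cases hs : Fo.mod a k f ∈ s
        · have h9 : (fun y => g y (Fo.mod a k f) = decide (Fo.mod a k f ∈ s)) =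
              fun y => (Finset.univ.filter fun i => g y (f i) = true).card % p = a % p := by
            funext y
            rw [hg1]
            simp [hs]
          rw [h9]
          exact h8
        · have h9 : (ind (fun y => g y (Fo.mod a k f) = decide (Fo.mod a k f ∈ s)) : Y → ZMod p) =
              1 - ind (fun y => (Finset.univ.filter fun i => g y (f i) = true).card % p = a % p) := by
            funext y
            rw [Pi.sub_apply, Pi.one_apply]
            simp only [ind, hg1, hs]
            by_cases h10 : (Finset.univ.filter fun i => g y (f i) = true).card % p = a % p <;>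
              simp [h10]
          rw [h9]
          exact (𝓐.Deg _).sub_mem (𝓐.one _) h8
      have hprod : ∀ s : Finset (Fo V), (∏ γ ∈ hf.toFinset, ind (fun y => g y γ = decide (γ ∈ s)) :
          Y → ZMod p) ∈ 𝓐.Deg (t * ((p - 1) * lvd t p D0 m)) := fun s =>
        𝓐.mono (Nat.mul_le_mul_right _ hcard) (alg_prod 𝓐 _ _ _ fun γ hγ => hgate γ hγ s)
      have hle : lvd t p D0 (m + 1) ≤ lvd t p D0 n := by
        refine Nat.le_induction le_rfl (fun j _ hj => hj.trans (lvd_succ_ge ht1 hp2 j)) n hm
      constructor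
      · intro b
        rw [ind_outer g B hf.toFinset hΓ (fun y C => r y C = b)]
        exact (𝓐.Deg _).sum_mem fun s _ => 𝓐.mul (hprod s) (hdeg _ B hB b)
      · rw [ind_outer g B hf.toFinset hΓ (fun y C => r y C = none)]
        exact 𝓐.Z.sum_mem fun s _ =>
          𝓐.zmul (hle.trans hK) (hprod s) (hdeg _ B hB none) (hz _ B hB)
  have hnest : ∀ C : Fo V, ∀ B ∈ C.subs, B.nest ≤ C.nest := by
    intro C
    induction C with
    | var v =>
      intro B hB
      simp only [Fo.subs, List.mem_singleton] at hB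
      rw [hB]
    | neg D ih =>
      intro B hB
      simp only [Fo.subs, List.mem_cons] at hB
      rcases hB with hB | hB
      · rw [hB]
      · exact ih B hB
    | imp D E ihD ihE =>
      intro B hB
      simp only [Fo.subs, List.mem_cons, List.mem_append] at hB
      rcases hB with hB | hB | hB
      · rw [hB]
      · exact (ihD B hB).trans (le_max_left _ _)
      · exact (ihE B hB).trans (le_max_right _ _)
    | mod a k f ih =>
      intro B hB
      simp only [Fo.subs, List.mem_cons, List.mem_flatMap, List.mem_finRange, true_and] at hB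
      rcases hB with hB | ⟨i, hB⟩
      · rw [hB]
      · have h1 := nest_input (a := a) (f := f) i (m := (Finset.univ.sup fun i => (f i).nest)) le_rfl
        have h2 : (Fo.mod a k f).nest = (Finset.univ.sup fun i => (f i).nest) + 1 := rfl
        have h3 := ih i B hB
        omega
  intro B hB
  obtain ⟨h1, h2⟩ := key n le_rfl B hB ((hnest A B hB).trans hn)
  refine ⟨?_, h1 none, h2⟩
  have h7 : (fun y => g y B = true) = fun y => r y (tr (g y) B) = some true := by
    funext y
    rw [hg2 y B]
    cases r y (tr (g y) B) <;> simp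
  rw [h7]
  exact h1 (some true)

end Degree

end Pool.Agent.H67.FG
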