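import Mathlib
import Pool.Agent.H3.Ac.Acm

set_option autoImplicit false
set_option linter.unusedSectionVars false

/-!
# All levels of depth: the values of all formulas on a set of prescribed size

`ac_reach`: if the formulas in `S` (closed under subformulas, at most `2 ^ w` of them) have left depth
`≤ d` over the formulas of length `≤ s`, and those of left depth `0` have coherent values on
matchings of `V`, `|V| ≥ NN w c (d + 1)`, `|V| ≡ c` mod 2, then all formulas of `S` have coherent
values on the matchings of a set with exactly `c` elements; formulas of left depth `0` which are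
never false stay so.
-/

namespace Pool.Agent.H3.Ac

open Finset Pool.Agent.H3.Frg Pool.Agent.H3.Frg2 Pool.Agent.H3.Frg3

theorem ac_reach_aux {W : Type} (s w c : ℕ) (hw : 1 ≤ w) (S : List (Fm W))
    (hS : SubCl {A | A ∈ S}) (hS2 : S.length ≤ 2 ^ w) (e : ℕ) :
    ∀ (i : ℕ) (V : Type) [Fintype V] [DecidableEq V]
      (val : Fm W → Finset (Sym2 V) → Option Bool),
      (∀ A ∈ S, ldep s A ≤ i → Val w (8 * w) (val A)) →
      Coh val {A | A ∈ S ∧ ldep s A ≤ i} →
      NN w c (e + 1) ≤ Fintype.card V → Fintype.card V % 2 = c % 2 →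
      ∃ (V' : Type) (_ : Fintype V') (_ : DecidableEq V')
        (val' : Fm W → Finset (Sym2 V') → Option Bool), Fintype.card V' = c ∧
        (∀ A ∈ S, ldep s A ≤ i + e + 1 → Val w (8 * w) (val' A)) ∧
        Coh val' {A | A ∈ S ∧ ldep s A ≤ i + e + 1} ∧
        (∀ A ∈ S, ldep s A ≤ i → (∀ M, IsM M → val A M ≠ some false) →
          ∀ M, IsM M → val' A M ≠ some false) := by
  induction e with
  | zero =>
    intro i V _ _ val hval hcoh hV hpar
    have hV' : 17 * w * (c + 1) ^ 4 ≤ Fintype.card V := hV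
    have h3 : c + 1 ≤ w * (c + 1) ^ 4 := by
      calc c + 1 = 1 * (c + 1) ^ 1 := by ring
        _ ≤ w * (c + 1) ^ 4 := Nat.mul_le_mul hw (Nat.pow_le_pow_right (by omega) (by omega))
    have h4 : 17 * w * (c + 1) ^ 4 = 2 * (8 * w * (c + 1) ^ 4) + w * (c + 1) ^ 4 := by ring
    have h5 : 8 * w * c ^ 4 ≤ 8 * w * (c + 1) ^ 4 :=
      Nat.mul_le_mul_left _ (Nat.pow_le_pow_left (by omega) 4)
    exact ac_step s i w c ((Fintype.card V - c) / 2) S hS val hval hcoh (by omega) (by omega) hS2
  | succ e ih =>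
    intro i V _ _ val hval hcoh hV hpar
    set N := NN w c (e + 1) with hN
    have hV' : 17 * w * (N + 1) ^ 4 ≤ Fintype.card V := hV
    have h1 : N + 1 ≤ w * (N + 1) ^ 4 := by
      calc N + 1 = 1 * (N + 1) ^ 1 := by ring
        _ ≤ w * (N + 1) ^ 4 := Nat.mul_le_mul hw (Nat.pow_le_pow_right (by omega) (by omega))
    have h4 : 17 * w * (N + 1) ^ 4 = 2 * (8 * w * (N + 1) ^ 4) + w * (N + 1) ^ 4 := by ring
    obtain ⟨l', m, hl1, hl2, hl3⟩ : ∃ l' m, N ≤ l' ∧ l' ≤ N + 1 ∧
        2 * m + l' = Fintype.card V := by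
      by_cases hp : (Fintype.card V - N) % 2 = 0
      · exact ⟨N, (Fintype.card V - N) / 2, le_rfl, by omega, by omega⟩
      · exact ⟨N + 1, (Fintype.card V - (N + 1)) / 2, by omega, le_rfl, by omega⟩
    have hm : 8 * w * l' ^ 4 ≤ m + 1 := by
      have h2 : 8 * w * l' ^ 4 ≤ 8 * w * (N + 1) ^ 4 :=
        Nat.mul_le_mul_left _ (Nat.pow_le_pow_left hl2 4)
      omega
    obtain ⟨V', hF, hD, val', g1, g2, g3, g4⟩ :=
      ac_step s i w l' m S hS val hval hcoh hl3 hm hS2
    obtain ⟨V'', hF2, hD2, val'', k1, k2, k3, k4⟩ :=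
      ih (i + 1) V' val' g2 g3 (by rw [g1]; exact hl1) (by rw [g1]; omega)
    have e1 : i + 1 + e + 1 = i + (e + 1) + 1 := by omega
    rw [e1] at k2 k3
    exact ⟨V'', hF2, hD2, val'', k1, k2, k3, fun A hA hi hf =>
      k4 A hA (by omega) (g4 A hA hi hf)⟩

/-- All formulas in `S` get coherent values on a set with exactly `c` elements. -/
theorem ac_reach {W : Type} (d s w c : ℕ) (hw : 1 ≤ w) (S : List (Fm W))
    (hS : SubCl {A | A ∈ S}) (hS2 : S.length ≤ 2 ^ w) (hd : ∀ A ∈ S, ldep s A ≤ d)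
    (V : Type) [Fintype V] [DecidableEq V] (val : Fm W → Finset (Sym2 V) → Option Bool)
    (hval : ∀ A ∈ S, ldep s A ≤ 0 → Val w (8 * w) (val A))
    (hcoh : Coh val {A | A ∈ S ∧ ldep s A ≤ 0})
    (hV : NN w c (d + 1) ≤ Fintype.card V) (hpar : Fintype.card V % 2 = c % 2) :
    ∃ (V' : Type) (_ : Fintype V') (_ : DecidableEq V')
      (val' : Fm W → Finset (Sym2 V') → Option Bool), Fintype.card V' = c ∧
      (∀ A ∈ S, Val w (8 * w) (val' A)) ∧ Coh val' {A | A ∈ S} ∧
      (∀ A ∈ S, ldep s A ≤ 0 → (∀ M, IsM M → val A M ≠ some false) →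
        ∀ M, IsM M → val' A M ≠ some false) := by
  obtain ⟨V', hF, hD, val', h1, h2, h3, h4⟩ :=
    ac_reach_aux s w c hw S hS hS2 d 0 V val hval hcoh hV hpar
  refine ⟨V', hF, hD, val', h1, fun A hA => h2 A hA (by have := hd A hA; omega), ?_, h4⟩
  have hset : {A : Fm W | A ∈ S ∧ ldep s A ≤ 0 + d + 1} = {A | A ∈ S} := by
    ext A
    exact ⟨fun h => h.1, fun h => ⟨h, by have := hd A h; omega⟩⟩
  rwa [hset] at h3

section Edge

variable {V : Type} [Fintype V] [DecidableEq V]

open scoped Classical in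
/-- the value of the edge variable `e` at a partial matching -/
noncomputable def evl (e : Sym2 V) (M : Finset (Sym2 V)) : Option Bool :=
  if e ∈ M then some true else if ∃ v ∈ e, v ∈ cov M then some false else none

theorem evl_true {e : Sym2 V} {M : Finset (Sym2 V)} : evl e M = some true ↔ e ∈ M := by
  unfold evl
  split_ifs with h1 h2 <;> simp [h1]

theorem evl_false {e : Sym2 V} {M : Finset (Sym2 V)} :
    evl e M = some false ↔ e ∉ M ∧ ∃ v ∈ e, v ∈ cov M := by
  unfold evl
  by_cases h1 : e ∈ M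
  · rw [if_pos h1]
    simp [h1]
  · rw [if_neg h1]
    by_cases h2 : ∃ v ∈ e, v ∈ cov M
    · rw [if_pos h2]
      exact ⟨fun _ => ⟨h1, h2⟩, fun _ => rfl⟩
    · rw [if_neg h2]
      exact ⟨fun h => absurd h (by simp), fun h => absurd h.2 h2⟩

theorem evl_Val {e : Sym2 V} (he : ¬ e.IsDiag) (w r : ℕ) (hw : 1 ≤ w) : Val w r (evl e) := by
  constructor
  · intro M M' hM' h b hb
    cases b with
    | true => exact evl_true.2 (h (evl_true.1 hb))
    | false =>
      obtain ⟨h1, v, hv, hc⟩ := evl_false.1 hb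
      refine evl_false.2 ⟨fun h2 => ?_, v, hv, cov_mono h hc⟩
      obtain ⟨f, hf, hvf⟩ := mem_cov.1 hc
      rw [hM'.2 e h2 f (h hf) v hv hvf] at h1
      exact h1 hf
  · intro M hM b hb
    cases b with
    | true =>
      refine ⟨{e}, by simpa using evl_true.1 hb, by simpa using hw, evl_true.2 (by simp)⟩
    | false =>
      obtain ⟨h1, v, hv, hc⟩ := evl_false.1 hb
      obtain ⟨f, hf, hvf⟩ := mem_cov.1 hc
      refine ⟨{f}, by simpa using hf, by simpa using hw, evl_false.2 ⟨?_, v, hv, ?_⟩⟩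
      · rw [Finset.mem_singleton]
        rintro rfl
        exact h1 hf
      · exact mem_cov.2 ⟨f, by simp, hvf⟩
  · intro M hM _
    by_cases h : ∃ v ∈ e, v ∈ cov M
    · refine ⟨M, hM, Finset.Subset.refl _, Nat.le_add_right _ _, ?_⟩
      by_cases h1 : e ∈ M
      · rw [evl_true.2 h1]; simp
      · rw [evl_false.2 ⟨h1, h⟩]; simp
    · have hI : IsM (insert e M) := by
        constructor
        · intro f hf
          rcases Finset.mem_insert.1 hf with rfl | hf
          · exact he
          · exact hM.1 f hf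
        · intro f hf g hg v hvf hvg
          rcases Finset.mem_insert.1 hf with hf1 | hf1
          · rcases Finset.mem_insert.1 hg with hg1 | hg1
            · rw [hf1, hg1]
            · rw [hf1] at hvf
              exact absurd ⟨v, hvf, mem_cov.2 ⟨g, hg1, hvg⟩⟩ h
          · rcases Finset.mem_insert.1 hg with hg1 | hg1
            · rw [hg1] at hvg
              exact absurd ⟨v, hvg, mem_cov.2 ⟨f, hf1, hvf⟩⟩ h
            · exact hM.2 f hf1 g hg1 v hvf hvg
      refine ⟨insert e M, hI, Finset.subset_insert _ _,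
        (Finset.card_insert_le _ _).trans (by omega), ?_⟩
      rw [evl_true.2 (Finset.mem_insert_self _ _)]
      simp

/-- constants -/
theorem const_Val (b : Bool) (w r : ℕ) : Val w r (fun _ : Finset (Sym2 V) => some b) :=
  ⟨fun _ _ _ _ _ h => h, fun _ _ _ h => ⟨∅, Finset.empty_subset _, by simp, h⟩,
    fun M hM _ => ⟨M, hM, Finset.Subset.refl _, Nat.le_add_right _ _, by simp⟩⟩

end Edge

end Pool.Agent.H3.Ac
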