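import Mathlib
import Pool.Agent.H3.MPG.Reach

set_option autoImplicit false
set_option linter.unusedSectionVars false

/-!
# One level of depth, with the base
-/

namespace Pool.Agent.H3.Ac

open Finset Pool.Agent.H3.Frg Pool.Agent.H3.Frg2 Pool.Agent.H3.Frg3

variable {W V : Type} [Fintype V] [DecidableEq V]

/-- one level of depth; the base `ρ` is given -/
theorem ac_step_base (s i w ℓ m : ℕ) (S : List (Fm W)) (hS : SubCl {A | A ∈ S})
    (val : Fm W → Finset (Sym2 V) → Option Bool)
    (hval : ∀ A ∈ S, ldep s A ≤ i → Val w (8 * w) (val A))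
    (hcoh : Coh val {A | A ∈ S ∧ ldep s A ≤ i})
    (hn : 2 * m + ℓ = Fintype.card V) (hw : 8 * w * ℓ ^ 4 ≤ m + 1)
    (hS2 : S.length ≤ 2 ^ w) :
    ∃ ρ : Finset (Sym2 V), IsM ρ ∧ ρ.card = m ∧
      (∀ A ∈ S, ldep s A ≤ i + 1 → Val w (8 * w) (nval s i w val ρ A)) ∧
      Coh (nval s i w val ρ) {A | A ∈ S ∧ ldep s A ≤ i + 1} := by
  obtain ⟨ρ, hρ, hρm, hgood⟩ := exists_good (V := V) (ι := Fin S.length) w ℓ w m hn hw
    (fun j => stpL s i w val (S.get j))
    (fun j t ht => ⟨(mem_stpL.1 ht).1, (mem_stpL.1 ht).2.1⟩) (by simpa using hS2)
  have hgood' : ∀ C ∈ S, ¬ Bad (stpL s i w val C) w ρ := by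
    intro C hC
    obtain ⟨j, hj⟩ := List.mem_iff_get.1 hC
    rw [← hj]
    exact hgood j
  refine ⟨ρ, hρ, hρm, ?_, ?_⟩
  · intro A hA _
    by_cases h : ldep s A ≤ i
    · exact stp_val_old hρ h (hval A hA h)
    · exact stp_val_new hρ h (hgood' A hA)
  · constructor
    · rintro A ⟨hAS, hAd⟩ M hM a b ha hb
      have hA : A ∈ S := hS.1 A hAS
      by_cases h : ldep s (Fm.neg A) ≤ i
      · have hA' := ldep_neg_le h
        rw [stp_nval_old hA'] at ha
        rw [stp_nval_old h] at hb
        exact hcoh.neg A ⟨hAS, h⟩ _ (isM_lft hρ hM) a b ha hb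
      · have hA' := ldep_neg_succ hAd h
        have hvA := hval A hA hA'
        rw [stp_nval_old hA'] at ha
        cases b with
        | true =>
          obtain ⟨π, _, hπ, _, t, h1, h2, h3, h4⟩ := stp_true_of h hb
          have h5 : val A t = some false := by
            simp only [tm] at h3
            rcases h3 with h3 | h3
            · exact absurd h3.1 h
            · exact h3.2
          have h6 := hvA.mono _ _ (isM_lft hρ hM) (h4.trans hπ) false h5
          rw [h6] at ha
          cases ha
          rfl
        | false =>
          obtain ⟨π, _, hπ, _, h4⟩ := stp_false_of h hb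
          cases a with
          | true => rfl
          | false =>
            exfalso
            obtain ⟨t, h5, h6, h7⟩ := hvA.wit _ (isM_lft hρ hM) false ha
            apply h4 t (isM_sub (isM_lft hρ hM) h5) h6
            · simp only [tm]
              exact Or.inr ⟨h, h7⟩
            · exact isM_sub (isM_lft hρ hM) (union_subset h5 hπ)
    · rintro A B ⟨hABS, hABd⟩ M hM a b c ha hb hc
      obtain ⟨hA, hB⟩ := hS.2 A B hABS
      by_cases h : ldep s (Fm.imp A B) ≤ i
      · obtain ⟨hA', hB'⟩ := ldep_imp_le h
        rw [stp_nval_old hA'] at ha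
        rw [stp_nval_old hB'] at hb
        rw [stp_nval_old h] at hc
        exact hcoh.imp A B ⟨hABS, h⟩ _ (isM_lft hρ hM) a b c ha hb hc
      · obtain ⟨hA', hB'⟩ := ldep_imp_succ hABd h
        have hvA := hval A hA hA'
        rw [stp_nval_old hA'] at ha
        cases c with
        | true =>
          obtain ⟨π, _, hπ, _, t, h1, h2, h3, h4⟩ := stp_true_of h hc
          simp only [tm] at h3
          rcases h3 with h3 | ⟨_, h3 | h3⟩
          · exact absurd h3.1 h
          · have h6 := hvA.mono _ _ (isM_lft hρ hM) (h4.trans hπ) false h3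
            rw [h6] at ha
            cases ha
            rfl
          · have h7 := stp_tm_up hρ (hval B hB) hM h1 h2 h3 (h4.trans hπ)
            rw [hb] at h7
            cases b with
            | true => simp
            | false => exact absurd rfl h7
        | false =>
          obtain ⟨π, _, hπ, _, h4⟩ := stp_false_of h hc
          have hat : a = true := by
            cases a with
            | true => rfl
            | false =>
              exfalso
              obtain ⟨t, h5, h6, h7⟩ := hvA.wit _ (isM_lft hρ hM) false ha
              apply h4 t (isM_sub (isM_lft hρ hM) h5) h6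
              · simp only [tm]
                exact Or.inr ⟨h, Or.inl h7⟩
              · exact isM_sub (isM_lft hρ hM) (union_subset h5 hπ)
          have hbf : b = false := by
            cases b with
            | false => rfl
            | true =>
              exfalso
              obtain ⟨t, h5, h6, h7, h8⟩ := stp_tm_dn hρ (hval B hB) hM hb
              apply h4 t h5 h6
              · simp only [tm]
                exact Or.inr ⟨h, Or.inr h7⟩
              · exact isM_sub (isM_lft hρ hM) (union_subset h8 hπ)
          rw [hat, hbf]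
          rfl

end Pool.Agent.H3.Ac
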