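import Mathlib
import Pool.Agent.H3.MPG.Step
import Pool.Agent.H67.FG.Run

set_option autoImplicit false
set_option linter.unusedSectionVars false

/-!
# The tower: values of bounded depth formulas over the edges of a complete graph

`tower`: the formulas in `S` over the edge variables of `Fin N` and constants get coherent values on the
matchings of a given set with `L` elements, so that the edge variables describe a matching of `Fin N`
(`VarOK`); clauses `a is matched` are never false (`VarOK.clause`).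
-/

namespace Pool.Agent.H3.MPG

open Finset Pool.Agent.H3.Ac Pool.Agent.H3.Frg Pool.Agent.H67.FG

/-- the edge variables describe a matching of the points of `Fin N`, the constants are right -/
structure VarOK {N : ℕ} {V : Type} [Fintype V]
    (val : Fm (Sym2 (Fin N) ⊕ Bool) → Finset (Sym2 V) → Option Bool) : Prop where
  /-- constants -/
  const : ∀ b M, val (Fm.var (Sum.inr b)) M = some b
  /-- no point has two partners -/
  func : ∀ a b c, b ≠ c → ∀ M, IsM M → val (Fm.var (Sum.inl s(a, b))) M = some true →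
    val (Fm.var (Sum.inl s(a, c))) M ≠ some true
  /-- every point gets a partner by one more edge -/
  ext : ∀ a M, IsM M → 2 * M.card + 2 ≤ Fintype.card V → ∃ M', IsM M' ∧ M ⊆ M' ∧
    M'.card ≤ M.card + 1 ∧ ∃ b, b ≠ a ∧ val (Fm.var (Sum.inl s(a, b))) M' = some true

/-! ### the levels -/

section Levels

variable {N : ℕ}

theorem VarOK.step {V : Type} [Fintype V] [DecidableEq V] {w i : ℕ}
    {val : Fm (Sym2 (Fin N) ⊕ Bool) → Finset (Sym2 V) → Option Bool} (h : VarOK val)
    {ρ : Finset (Sym2 V)} (hρ : IsM ρ) : VarOK (nval 0 i w val ρ) := by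
  have hv : ∀ x M, nval 0 i w val ρ (Fm.var x) M = val (Fm.var x) (lft ρ M) := fun x M =>
    stp_nval_old (C := Fm.var x) (Nat.zero_le _) M
  have hU := card_Unc hρ
  constructor
  · intro b M
    rw [hv]
    exact h.const b _
  · intro a b c hbc M hM h1
    rw [hv] at h1 ⊢
    exact h.func a b c hbc _ (isM_lft hρ hM) h1
  · intro a M hM hroom
    have hc := card_lft (ρ := ρ) M
    obtain ⟨K, h1, h2, h3, b, h4, h5⟩ := h.ext a _ (isM_lft hρ hM) (by rw [hc]; omega)
    have h6 : lft ρ (rst ρ K) = K := lft_rst h1 ((sub_lft M).trans h2)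
    have h7 := card_lft (ρ := ρ) (rst ρ K)
    rw [h6] at h7
    refine ⟨rst ρ K, isM_rst h1, ?_, by omega, b, h4, ?_⟩
    · calc M = rst ρ (lft ρ M) := (rst_lft M).symm
        _ ⊆ rst ρ K := rst_mono h2
    · rw [hv, h6]
      exact h5

theorem lev_par (w c i : ℕ) : lev w c i % 2 = c % 2 := by
  induction i with
  | zero => rfl
  | succ i ih =>
    have h1 : lev w c (i + 1) = 2 * (8 * w * (lev w c i) ^ 4) + lev w c i := by
      rw [lev]
      ring
    omega

theorem tower_aux (w c : ℕ) (S : List (Fm (Sym2 (Fin N) ⊕ Bool)))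
    (hS : SubCl {A | A ∈ S}) (hS2 : S.length ≤ 2 ^ w) (e : ℕ) :
    ∀ (i : ℕ) (V : Type) [Fintype V] [DecidableEq V]
      (val : Fm (Sym2 (Fin N) ⊕ Bool) → Finset (Sym2 V) → Option Bool),
      (∀ A ∈ S, ldep 0 A ≤ i → Val w (8 * w) (val A)) →
      Coh val {A | A ∈ S ∧ ldep 0 A ≤ i} → VarOK val →
      lev w c (e + 1) ≤ Fintype.card V → Fintype.card V % 2 = c % 2 →
      ∃ (V' : Type) (_ : Fintype V') (_ : DecidableEq V')
        (val' : Fm (Sym2 (Fin N) ⊕ Bool) → Finset (Sym2 V') → Option Bool),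
        Fintype.card V' = c ∧
        (∀ A ∈ S, ldep 0 A ≤ i + e + 1 → Val w (8 * w) (val' A)) ∧
        Coh val' {A | A ∈ S ∧ ldep 0 A ≤ i + e + 1} ∧ VarOK val' := by
  induction e with
  | zero =>
    intro i V _ _ val hval hcoh hok hV hpar
    have h1 : lev w c (0 + 1) = 2 * (8 * w * c ^ 4) + c := by
      rw [lev, lev]
      ring
    obtain ⟨ρ, hρ, hρm, h6, h7⟩ := ac_step_base 0 i w c ((Fintype.card V - c) / 2) S hS val hval
      hcoh (by omega) (by omega) hS2
    have hU := card_Unc hρ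
    exact ⟨Unc ρ, inferInstance, inferInstance, nval 0 i w val ρ, by omega, h6, h7, hok.step hρ⟩
  | succ e ih =>
    intro i V _ _ val hval hcoh hok hV hpar
    have h1 : lev w c (e + 1 + 1) = 2 * (8 * w * (lev w c (e + 1)) ^ 4) + lev w c (e + 1) := by
      rw [lev.eq_2 w c (e + 1)]
      ring
    have h2 := lev_par w c (e + 1)
    obtain ⟨ρ, hρ, hρm, h6, h7⟩ := ac_step_base 0 i w (lev w c (e + 1))
      ((Fintype.card V - lev w c (e + 1)) / 2) S hS val hval hcoh (by omega) (by omega) hS2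
    have hU := card_Unc hρ
    obtain ⟨V'', hF2, hD2, val'', k1, k2, k3, k4⟩ :=
      ih (i + 1) (Unc ρ) (nval 0 i w val ρ) h6 h7 (hok.step hρ) (by omega) (by omega)
    have e1 : i + 1 + e + 1 = i + (e + 1) + 1 := by omega
    rw [e1] at k2 k3
    exact ⟨V'', hF2, hD2, val'', k1, k2, k3, k4⟩

/-! ### the values of the variables at the start -/

open scoped Classical in
/-- the values at the start -/
noncomputable def val0 (N : ℕ) : Fm (Sym2 (Fin N) ⊕ Bool) → Finset (Sym2 (Fin N)) → Option Bool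
  | Fm.var (Sum.inl e), M => if e.IsDiag then some false else evl e M
  | Fm.var (Sum.inr b), _ => some b
  | Fm.neg _, _ => none
  | Fm.imp _ _, _ => none

theorem val0_true {a b : Fin N} {M : Finset (Sym2 (Fin N))} (hM : IsM M) :
    val0 N (Fm.var (Sum.inl s(a, b))) M = some true ↔ s(a, b) ∈ M := by
  classical
  simp only [val0]
  by_cases h : (s(a, b) : Sym2 (Fin N)).IsDiag
  · rw [if_pos h]
    exact ⟨fun h1 => absurd h1 (by simp), fun h1 => absurd h (hM.1 _ h1)⟩
  · rw [if_neg h]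
    exact evl_true

theorem val0_OK (N : ℕ) : VarOK (val0 N) := by
  classical
  constructor
  · intro b M
    rfl
  · intro a b c hbc M hM h1 h2
    rw [val0_true hM] at h1 h2
    have h3 := hM.2 _ h1 _ h2 a (Sym2.mem_mk_left _ _) (Sym2.mem_mk_left _ _)
    exact hbc (Sym2.congr_right.1 h3)
  · intro a M hM hroom
    obtain ⟨M', h1, h2, h3, h4, _⟩ := cover {a} hM (by rw [Finset.card_singleton]; omega)
    rw [Finset.card_singleton] at h4
    obtain ⟨e, he, hae⟩ := mem_cov.1 (h3 (Finset.mem_singleton_self a))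
    obtain ⟨b, rfl⟩ := Sym2.mem_iff_exists.1 hae
    refine ⟨M', h1, h2, h4, b, ?_, (val0_true h1).2 he⟩
    rintro rfl
    exact h1.1 _ he rfl

theorem ldep_zero_pos (A : Fm (Sym2 (Fin N) ⊕ Bool)) (h : ldep 0 A ≤ 0) :
    ∃ x, A = Fm.var x := by
  cases A with
  | var x => exact ⟨x, rfl⟩
  | neg A =>
    simp only [ldep] at h
    rw [if_neg (by omega)] at h
    omega
  | imp A B =>
    simp only [ldep] at h
    rw [if_neg (by omega)] at h
    omega

theorem val0_Val (w r : ℕ) (hw : 1 ≤ w) (A : Fm (Sym2 (Fin N) ⊕ Bool)) (h : ldep 0 A ≤ 0) :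
    Val w r (val0 N A) := by
  classical
  obtain ⟨x, rfl⟩ := ldep_zero_pos A h
  rcases x with e | b
  · by_cases he : e.IsDiag
    · have h1 : val0 N (Fm.var (Sum.inl e)) = fun _ => some false := by
        funext M
        simp only [val0, if_pos he]
      rw [h1]
      exact const_Val false w r
    · have h1 : val0 N (Fm.var (Sum.inl e)) = evl e := by
        funext M
        simp only [val0, if_neg he]
      rw [h1]
      exact evl_Val he w r hw
  · exact const_Val b w r

end Levels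

/-! ### transport to a given set -/

section Transport

variable {A B : Type}

/-- transport of a set of edges -/
def psh (φ : A ≃ B) (M : Finset (Sym2 A)) : Finset (Sym2 B) :=
  M.map ⟨Sym2.map φ, Sym2.map.injective φ.injective⟩

theorem mem_psh {φ : A ≃ B} {M : Finset (Sym2 A)} {e : Sym2 B} :
    e ∈ psh φ M ↔ ∃ f ∈ M, Sym2.map φ f = e := by
  unfold psh
  rw [Finset.mem_map]
  rfl

theorem psh_symm (φ : A ≃ B) (M : Finset (Sym2 A)) : psh φ.symm (psh φ M) = M := by
  ext e
  rw [mem_psh]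
  constructor
  · rintro ⟨f, hf, rfl⟩
    obtain ⟨g, hg, rfl⟩ := mem_psh.1 hf
    rw [Sym2.map_map]
    have h1 : (φ.symm : B → A) ∘ φ = id := by
      funext x
      simp
    rw [h1, Sym2.map_id]
    exact hg
  · intro he
    refine ⟨Sym2.map φ e, mem_psh.2 ⟨e, he, rfl⟩, ?_⟩
    rw [Sym2.map_map]
    have h1 : (φ.symm : B → A) ∘ φ = id := by
      funext x
      simp
    rw [h1, Sym2.map_id]
    rfl

theorem psh_symm' (φ : A ≃ B) (M : Finset (Sym2 B)) : psh φ (psh φ.symm M) = M := by
  have h := psh_symm φ.symm M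
  rwa [Equiv.symm_symm] at h

theorem psh_mono {φ : A ≃ B} {M M' : Finset (Sym2 A)} (h : M ⊆ M') : psh φ M ⊆ psh φ M' :=
  Finset.map_subset_map.2 h

theorem card_psh (φ : A ≃ B) (M : Finset (Sym2 A)) : (psh φ M).card = M.card :=
  Finset.card_map _

theorem isM_psh {φ : A ≃ B} {M : Finset (Sym2 A)} (hM : IsM M) : IsM (psh φ M) := by
  constructor
  · intro e he hd
    obtain ⟨f, hf, rfl⟩ := mem_psh.1 he
    exact hM.1 f hf ((Sym2.isDiag_map φ.injective).1 hd)
  · intro e he f hf v hve hvf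
    obtain ⟨e', he', rfl⟩ := mem_psh.1 he
    obtain ⟨f', hf', rfl⟩ := mem_psh.1 hf
    obtain ⟨x, hx, rfl⟩ := Sym2.mem_map.1 hve
    obtain ⟨y, hy, hxy⟩ := Sym2.mem_map.1 hvf
    rw [φ.injective hxy] at hy
    rw [hM.2 e' he' f' hf' x hx hy]

variable [Fintype A] [Fintype B]

theorem Val_psh {φ : A ≃ B} {w r : ℕ} {f : Finset (Sym2 B) → Option Bool} (h : Val w r f) :
    Val w r (fun M => f (psh φ M)) := by
  have hc : Fintype.card A = Fintype.card B := Fintype.card_congr φ
  constructor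
  · intro M M' hM' hs b hb
    exact h.mono _ _ (isM_psh hM') (psh_mono hs) b hb
  · intro M hM b hb
    obtain ⟨t, h1, h2, h3⟩ := h.wit _ (isM_psh hM) b hb
    refine ⟨MPG.psh φ.symm t, ?_, by rw [card_psh]; exact h2, by rw [psh_symm']; exact h3⟩
    have h4 := psh_mono (φ := φ.symm) h1
    rwa [psh_symm] at h4
  · intro M hM hroom
    obtain ⟨K, h1, h2, h3, h4⟩ := h.tot _ (isM_psh (φ := φ) hM) (by rw [card_psh, ← hc]; exact hroom)
    refine ⟨MPG.psh φ.symm K, isM_psh h1, ?_, ?_, by rw [psh_symm']; exact h4⟩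
    · have h5 := psh_mono (φ := φ.symm) h2
      rwa [psh_symm] at h5
    · rw [card_psh]
      rw [card_psh] at h3
      exact h3

theorem Coh_psh {W : Type} {φ : A ≃ B} {val : Fm W → Finset (Sym2 B) → Option Bool}
    {S : Set (Fm W)} (h : Coh val S) : Coh (fun F (M : Finset (Sym2 A)) => val F (psh φ M)) S :=
  ⟨fun F hF M hM a b ha hb => h.neg F hF _ (isM_psh hM) a b ha hb,
    fun F G hF M hM a b c ha hb hc => h.imp F G hF _ (isM_psh hM) a b c ha hb hc⟩

theorem VarOK_psh {N : ℕ} {φ : A ≃ B}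
    {val : Fm (Sym2 (Fin N) ⊕ Bool) → Finset (Sym2 B) → Option Bool} (h : VarOK val) :
    VarOK (fun F (M : Finset (Sym2 A)) => val F (psh φ M)) := by
  have hc : Fintype.card A = Fintype.card B := Fintype.card_congr φ
  constructor
  · intro b M
    exact h.const b _
  · intro a b c hbc M hM h1
    exact h.func a b c hbc _ (isM_psh hM) h1
  · intro a M hM hroom
    obtain ⟨K, h1, h2, h3, b, h4, h5⟩ :=
      h.ext a _ (isM_psh (φ := φ) hM) (by rw [card_psh, ← hc]; exact hroom)
    refine ⟨MPG.psh φ.symm K, isM_psh h1, ?_, ?_, b, h4, ?_⟩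
    · have h6 := psh_mono (φ := φ.symm) h2
      rwa [psh_symm] at h6
    · rw [card_psh]
      rw [card_psh] at h3
      exact h3
    · show val _ (MPG.psh φ (MPG.psh φ.symm K)) = some true
      rw [psh_symm']
      exact h5

end Transport

/-! ### clauses -/

section Clause

variable {W V : Type} [Fintype V] [DecidableEq V]

theorem orF_mem {S : Set (Fm W)} (hS : SubCl S) (l : List (Fm W)) (B : Fm W) (h : orF l B ∈ S) :
    ∀ x ∈ B :: l, x ∈ S := by
  induction l with
  | nil =>
    intro x hx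
    rw [List.mem_singleton] at hx
    rw [hx]
    exact h
  | cons C l ih =>
    have h1 := hS.2 (Fm.neg C) (orF l B) h
    intro x hx
    rcases List.mem_cons.1 hx with rfl | hx
    · exact ih h1.2 x List.mem_cons_self
    · rcases List.mem_cons.1 hx with rfl | hx
      · exact hS.1 x h1.1
      · exact ih h1.2 x (List.mem_cons_of_mem _ hx)

theorem orF_bool {a b : Bool} (h : false = (!a || b)) : a = true ∧ b = false := by
  revert h
  cases a <;> cases b <;> decide

theorem orF_bool2 {c : Bool} (h : true = !c) : c = false := by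
  revert h
  cases c <;> decide

/-- a disjunction with a true member is not false at a small matching -/
theorem orF_true {S : Set (Fm W)} (hS : SubCl S) {w : ℕ}
    {val : Fm W → Finset (Sym2 V) → Option Bool} (hval : ∀ A ∈ S, Val w (8 * w) (val A))
    (hcoh : Coh val S) (hV : 16 * w ≤ Fintype.card V) {x : Fm W} {t0 : Finset (Sym2 V)}
    (ht0 : t0.card ≤ w) (hx : val x t0 = some true) (B : Fm W) :
    ∀ (l : List (Fm W)), orF l B ∈ S → x ∈ B :: l → ∀ M, IsM M → M.card ≤ 2 * w → t0 ⊆ M →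
      val (orF l B) M ≠ some false := by
  intro l
  induction l with
  | nil =>
    intro hB hxB M hM _ ht hf
    rw [List.mem_singleton] at hxB
    rw [hxB] at hx
    have h1 := (hval B hB).mono _ _ hM ht true hx
    rw [show orF [] B = B from rfl, h1] at hf
    exact absurd hf (by simp)
  | cons C l ih =>
    intro hC hxC M hM hMw ht hf
    obtain ⟨h1, h2⟩ := hS.2 (Fm.neg C) (orF l B) hC
    have h3 := hS.1 C h1
    obtain ⟨M1, a1, a2, a3, a4⟩ := (hval _ h1).tot M hM (by omega)
    obtain ⟨M2, b1, b2, b3, b4⟩ := (hval _ h2).tot M1 a1 (by omega)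
    obtain ⟨M3, c1, c2, c3, c4⟩ := (hval _ h3).tot M2 b1 (by omega)
    obtain ⟨va, hva⟩ := Option.ne_none_iff_exists'.1 a4
    obtain ⟨vb, hvb⟩ := Option.ne_none_iff_exists'.1 b4
    obtain ⟨vc, hvc⟩ := Option.ne_none_iff_exists'.1 c4
    have d1 := (hval _ h1).mono _ _ c1 (b2.trans c2) va hva
    have d2 := (hval _ h2).mono _ _ c1 c2 vb hvb
    have d3 : val (orF (C :: l) B) M3 = some false :=
      (hval _ hC).mono _ _ c1 ((a2.trans b2).trans c2) false hf
    have e1 : false = (!va || vb) := hcoh.imp (Fm.neg C) (orF l B) hC M3 c1 va vb false d1 d2 d3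
    have e2 : va = !vc := hcoh.neg C h1 M3 c1 vc va hvc d1
    obtain ⟨e5, e3⟩ := orF_bool e1
    have e4 : vc = false := by
      rw [e5] at e2
      exact orF_bool2 e2
    have hMM : M ⊆ M3 := (a2.trans b2).trans c2
    have hxm : x ∈ C :: (B :: l) := by
      rcases List.mem_cons.1 hxC with h | h
      · rw [h]; simp
      · rcases List.mem_cons.1 h with h | h
        · rw [h]; simp
        · exact List.mem_cons_of_mem _ (List.mem_cons_of_mem _ h)
    rcases List.mem_cons.1 hxm with h | h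
    · rw [h] at hx
      have h5 := (hval C h3).mono _ _ c1 (ht.trans hMM) true hx
      rw [h5, e4] at hvc
      exact absurd hvc (by simp)
    · rw [e3] at d2
      obtain ⟨t, f1, f2, f3⟩ := (hval _ h2).wit M3 c1 false d2
      have g1 : t ∪ t0 ⊆ M3 := Finset.union_subset f1 (ht.trans hMM)
      refine ih h2 h (t ∪ t0) (isM_sub c1 g1) ((Finset.card_union_le _ _).trans (by omega))
        Finset.subset_union_right ?_
      exact (hval _ h2).mono _ _ (isM_sub c1 g1) Finset.subset_union_left false f3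

/-- clauses `a is matched` are never false -/
theorem VarOK.clause {N : ℕ} {S : Set (Fm (Sym2 (Fin N) ⊕ Bool))} (hS : SubCl S) {w : ℕ}
    (hw : 1 ≤ w) {val : Fm (Sym2 (Fin N) ⊕ Bool) → Finset (Sym2 V) → Option Bool}
    (hval : ∀ A ∈ S, Val w (8 * w) (val A)) (hcoh : Coh val S) (hok : VarOK val)
    (hV : 16 * w ≤ Fintype.card V) (a : Fin N) (l : List (Fm (Sym2 (Fin N) ⊕ Bool)))
    (B : Fm (Sym2 (Fin N) ⊕ Bool)) (hC : orF l B ∈ S)
    (hall : ∀ b, b ≠ a → Fm.var (Sum.inl s(a, b)) ∈ B :: l) (M : Finset (Sym2 V)) (hM : IsM M) :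
    val (orF l B) M ≠ some false := by
  intro hf
  obtain ⟨t, h1, h2, h3⟩ := (hval _ hC).wit M hM false hf
  obtain ⟨M', k1, k2, k3, b, k4, k5⟩ := hok.ext a t (isM_sub hM h1) (by omega)
  have hxS := orF_mem hS l B hC _ (hall b k4)
  obtain ⟨t0, m1, m2, m3⟩ := (hval _ hxS).wit M' k1 true k5
  have g1 : t ∪ t0 ⊆ M' := Finset.union_subset k2 m1
  exact orF_true hS hval hcoh hV m2 m3 B l hC (hall b k4) (t ∪ t0) (isM_sub k1 g1)
    ((Finset.card_union_le _ _).trans (by omega)) Finset.subset_union_right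
    ((hval _ hC).mono _ _ (isM_sub k1 g1) Finset.subset_union_left false h3)

end Clause

/-- **The tower**: values for all formulas of a list on a given point set `V'` -/
theorem tower {d w : ℕ} (hd : 1 ≤ d) (hw : 1 ≤ w) {V' : Type} [Fintype V'] [DecidableEq V']
    (hL : Odd (Fintype.card V')) (hLw : 100 * (w + 1) ^ 2 ≤ Fintype.card V') {N : ℕ} (hN : Odd N)
    (hNL : lev w (Fintype.card V') d ≤ N) (S : List (Fm (Sym2 (Fin N) ⊕ Bool))) (hS : SubCl {A | A ∈ S})
    (hdep : ∀ A ∈ S, ldep 0 A ≤ d) (hlen : S.length ≤ 2 ^ w) :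
    ∃ val : Fm (Sym2 (Fin N) ⊕ Bool) → Finset (Sym2 V') → Option Bool,
      (∀ A ∈ S, Val w (8 * w) (val A)) ∧ Coh val {A | A ∈ S} ∧
      (∀ b M, val (.var (Sum.inr b)) M = some b) ∧
      (∀ a b c : Fin N, b ≠ c → ∀ M, IsM M → ¬ (val (.var (Sum.inl s(a, b))) M = some true ∧
        val (.var (Sum.inl s(a, c))) M = some true)) ∧
      ∀ (a : Fin N) (l : List (Fm (Sym2 (Fin N) ⊕ Bool))) (B : Fm (Sym2 (Fin N) ⊕ Bool)), orF l B ∈ S →
        (∀ b, b ≠ a → .var (Sum.inl s(a, b)) ∈ B :: l) → ∀ M, IsM M → val (orF l B) M ≠ some false := by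
  obtain ⟨e, rfl⟩ : ∃ e, d = e + 1 := ⟨d - 1, by omega⟩
  have hpar : N % 2 = Fintype.card V' % 2 := by
    rw [Nat.odd_iff.1 hN, Nat.odd_iff.1 hL]
  obtain ⟨V₁, hF, hD, val', h1, h2, h3, h4⟩ :=
    tower_aux w (Fintype.card V') S hS hlen e 0 (Fin N) (val0 N)
      (fun A _ hA => val0_Val w (8 * w) hw A hA)
      ⟨fun A hA => by
        obtain ⟨x, hx⟩ := ldep_zero_pos _ hA.2
        exact absurd hx (by simp), fun A B hA => by
        obtain ⟨x, hx⟩ := ldep_zero_pos _ hA.2
        exact absurd hx (by simp)⟩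
      (val0_OK N) (by rw [Fintype.card_fin]; exact hNL) (by rw [Fintype.card_fin]; exact hpar)
  obtain ⟨φ⟩ := Fintype.card_eq.1 h1.symm
  have hset : {A : Fm (Sym2 (Fin N) ⊕ Bool) | A ∈ S ∧ ldep 0 A ≤ 0 + e + 1} = {A | A ∈ S} := by
    ext A
    exact ⟨fun h => h.1, fun h => ⟨h, by have := hdep A h; omega⟩⟩
  rw [hset] at h3
  have k1 : ∀ A ∈ {A | A ∈ S}, Val w (8 * w) (fun M : Finset (Sym2 V') => val' A (psh φ M)) :=
    fun A hA => Val_psh (h2 A hA (by have := hdep A hA; omega))
  have k2 := Coh_psh (φ := φ) h3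
  have k3 := VarOK_psh (φ := φ) h4
  have hV : 16 * w ≤ Fintype.card V' := by nlinarith
  exact ⟨fun F M => val' F (psh φ M), k1, k2, k3.const,
    fun a b c hbc M hM h => k3.func a b c hbc M hM h.1 h.2,
    fun a l B hC hall M hM => k3.clause hS hw k1 k2 hV a l B hC hall M hM⟩

end Pool.Agent.H3.MPG
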